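import Mathlib
import Pool.Agent.H359R3.Exist

/-! The Liouville function at shifted squares: if it is `1` from some point on then it is `1` at all
positive values of the form `x ^ 2 + d y ^ 2`. -/

set_option autoImplicit false

namespace Pool.Agent.Y821.LShift

/-- the Liouville function of an integer -/
def L (m : ℤ) : ℤ := (-1) ^ ArithmeticFunction.cardFactors m.natAbs

lemma L_mul {x y : ℤ} (hx : x ≠ 0) (hy : y ≠ 0) : L (x * y) = L x * L y := by
  unfold L
  rw [Int.natAbs_mul, ArithmeticFunction.cardFactors_mul (Int.natAbs_ne_zero.2 hx)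
    (Int.natAbs_ne_zero.2 hy), pow_add]

lemma L_cases (x : ℤ) : L x = 1 ∨ L x = -1 := by
  unfold L
  exact neg_one_pow_eq_or ℤ _

lemma L_sq {x : ℤ} (hx : x ≠ 0) : L (x ^ 2) = 1 := by
  rw [pow_two, L_mul hx hx]
  rcases L_cases x with h | h <;> rw [h] <;> norm_num

lemma L_prime {q : ℕ} (hq : q.Prime) : L (q : ℤ) = -1 := by
  unfold L
  rw [Int.natAbs_natCast, ArithmeticFunction.cardFactors_apply_prime hq]
  norm_num

/-- backward induction -/
lemma all_nat {d : ℤ} {N : ℕ} (h : ∀ n : ℕ, N ≤ n → 0 < (n : ℤ) ^ 2 + d → L ((n : ℤ) ^ 2 + d) = 1) :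
    ∀ k n : ℕ, N ≤ n + k → 0 < (n : ℤ) ^ 2 + d → L ((n : ℤ) ^ 2 + d) = 1 := by
  intro k
  induction k using Nat.strong_induction_on with
  | _ k ih =>
    intro n hn hpos
    rcases Nat.lt_or_ge n N with hlt | hge
    · -- n < N
      have hk : 0 < k := by omega
      have h1 : 0 < ((n + 1 : ℕ) : ℤ) ^ 2 + d := by push_cast; nlinarith [Int.natCast_nonneg n]
      have e1 := ih (k - 1) (by omega) (n + 1) (by omega) h1
      obtain ⟨P, hP⟩ := Int.eq_ofNat_of_zero_le hpos.le
      have hP1 : 1 ≤ P := by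
        have : (0 : ℤ) < (P : ℤ) := by rw [← hP]; exact hpos
        exact_mod_cast this
      have h2 : 0 < ((n + P : ℕ) : ℤ) ^ 2 + d := by
        push_cast
        nlinarith [Int.natCast_nonneg n, Int.natCast_nonneg P]
      have e2 := ih (k - 1) (by omega) (n + P) (by omega) h2
      have hid : ((n + P : ℕ) : ℤ) ^ 2 + d = ((n : ℤ) ^ 2 + d) * (((n + 1 : ℕ) : ℤ) ^ 2 + d) := by
        push_cast
        have : (P : ℤ) = (n : ℤ) ^ 2 + d := hP.symm
        rw [this]
        ring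
      rw [hid, L_mul hpos.ne' h1.ne', e1, mul_one] at e2
      exact e2
    · exact h n hge hpos

/-- all values of the form `x ^ 2 + d y ^ 2` -/
lemma all_form {d : ℤ} (h : ∀ n : ℕ, 0 < (n : ℤ) ^ 2 + d → L ((n : ℤ) ^ 2 + d) = 1) :
    ∀ b a : ℕ, 0 < (a : ℤ) ^ 2 + d * (b : ℤ) ^ 2 → L ((a : ℤ) ^ 2 + d * (b : ℤ) ^ 2) = 1 := by
  intro b
  induction b using Nat.strong_induction_on with
  | _ b ih =>
    intro a hpos
    rcases Nat.eq_zero_or_pos b with rfl | hb
    · have : (a : ℤ) ≠ 0 := by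
        rintro h0
        rw [h0] at hpos
        simp at hpos
      have e : (a : ℤ) ^ 2 + d * ((0 : ℕ) : ℤ) ^ 2 = (a : ℤ) ^ 2 := by push_cast; ring
      rw [e]
      exact L_sq this
    · -- choose n with b n in [a, a + b)
      obtain ⟨n, c, hc, hn⟩ : ∃ n c : ℕ, c < b ∧ b * n = a + c := by
        refine ⟨(a + (b - 1)) / b, b * ((a + (b - 1)) / b) - a, ?_, ?_⟩
        · have h1 := Nat.div_add_mod (a + (b - 1)) b
          have h2 := Nat.mod_lt (a + (b - 1)) hb
          omega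
        · have h1 := Nat.div_add_mod (a + (b - 1)) b
          have h2 := Nat.mod_lt (a + (b - 1)) hb
          omega
      have hnZ : (b : ℤ) * n = a + c := by exact_mod_cast hn
      have hbZ : (0 : ℤ) < b := by exact_mod_cast hb
      have hcZ : (0 : ℤ) ≤ c := Int.natCast_nonneg c
      have haZ : (0 : ℤ) ≤ a := Int.natCast_nonneg a
      have hnpos : 0 < (n : ℤ) ^ 2 + d := by
        have h1 : 0 < (b : ℤ) ^ 2 * ((n : ℤ) ^ 2 + d) := by
          have e : (b : ℤ) ^ 2 * ((n : ℤ) ^ 2 + d) = (a + c : ℤ) ^ 2 + d * (b : ℤ) ^ 2 := by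
            rw [← hnZ]; ring
          rw [e]
          nlinarith
        exact (mul_pos_iff_of_pos_left (by positivity)).1 h1
      have hid : ((a : ℤ) ^ 2 + d * (b : ℤ) ^ 2) * ((n : ℤ) ^ 2 + d) =
          ((((a : ℤ) * n + d * b).natAbs : ℕ) : ℤ) ^ 2 + d * (c : ℤ) ^ 2 := by
        rw [Int.natCast_natAbs, sq_abs]
        have : (c : ℤ) = b * n - a := by linarith
        rw [this]
        ring
      have hpp : 0 < ((((a : ℤ) * n + d * b).natAbs : ℕ) : ℤ) ^ 2 + d * (c : ℤ) ^ 2 := by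
        rw [← hid]
        exact mul_pos hpos hnpos
      have e1 := ih c hc _ hpp
      rw [← hid, L_mul hpos.ne' hnpos.ne', h n hnpos, mul_one] at e1
      exact e1

lemma all_form_int {d : ℤ} (h : ∀ n : ℕ, 0 < (n : ℤ) ^ 2 + d → L ((n : ℤ) ^ 2 + d) = 1)
    (a b : ℤ) (hpos : 0 < a ^ 2 + d * b ^ 2) : L (a ^ 2 + d * b ^ 2) = 1 := by
  have h1 := all_form h b.natAbs a.natAbs
  rw [Int.natCast_natAbs, Int.natCast_natAbs, sq_abs, sq_abs] at h1
  exact h1 hpos

theorem main (d : ℤ) (hd : d ≠ 0)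
    (h : ∀ n : ℕ, 0 < (n : ℤ) ^ 2 + d → L ((n : ℤ) ^ 2 + d) = 1) : False := by
  have hf := all_form_int h
  by_cases hsq : IsSquare (-d)
  · -- d = - k ^ 2
    obtain ⟨k, hk⟩ := hsq
    have hk0 : k ≠ 0 := by
      rintro rfl
      apply hd
      linarith
    -- a prime `1` modulo `2 |k|`
    obtain ⟨p, hp, -, hp1⟩ := Nat.exists_prime_gt_modEq_one 1 (k := 2 * k.natAbs) (by
      have := Int.natAbs_pos.2 hk0
      omega)
    have hdvd : ((2 * k.natAbs : ℕ) : ℤ) ∣ (p : ℤ) - 1 := by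
      have := (Nat.modEq_iff_dvd).1 hp1.symm
      simpa using this
    have hdvd2 : 2 * k ∣ (p : ℤ) - 1 := by
      rw [← Int.natAbs_dvd]
      rw [Int.natAbs_mul]
      simpa using hdvd
    obtain ⟨b, hb⟩ := hdvd2
    have hval : (1 + k * b) ^ 2 + d * b ^ 2 = (p : ℤ) := by
      have e : d = - (k * k) := by linarith
      rw [e]
      have e2 : (p : ℤ) = 1 + 2 * k * b := by linarith
      rw [e2]
      ring
    have hpos : 0 < (1 + k * b) ^ 2 + d * b ^ 2 := by
      rw [hval]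
      exact_mod_cast hp.pos
    have h1 := hf _ _ hpos
    rw [hval, L_prime hp] at h1
    norm_num at h1
  · by_cases h1 : d = 1
    · subst h1
      have h2 := hf 1 1 (by norm_num)
      have e : (1 : ℤ) ^ 2 + 1 * 1 ^ 2 = ((2 : ℕ) : ℤ) := by norm_num
      rw [e, L_prime Nat.prime_two] at h2
      norm_num at h2
    · have hm1 : d ≠ -1 := by
        rintro rfl
        exact hsq ⟨1, by norm_num⟩
      obtain ⟨q, hq, x, y, z, hxyz⟩ := H359R3.exists_repr (-d) (by
        rw [Int.natAbs_neg]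
        omega) hsq
      have hq0 : (q : ℤ) ≠ 0 := by exact_mod_cast hq.ne_zero
      have hqpos : (0 : ℤ) < q := by exact_mod_cast hq.pos
      -- reduce to the first alternative
      obtain ⟨x, y, z, hxyz, hz⟩ : ∃ x y z : ℤ, x ^ 2 + d * y ^ 2 = q * z ^ 2 ∧ z ≠ 0 := by
        rcases hxyz with ⟨h2, h3⟩ | h2
        · exact ⟨x, y, z, by linarith, h3⟩
        · refine ⟨x * z + d * y, y * z - x, z ^ 2 + d, ?_, ?_⟩
          · have e : (x * z + d * y) ^ 2 + d * (y * z - x) ^ 2 =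
                (x ^ 2 - (-d) * y ^ 2) * (z ^ 2 + d) := by ring
            rw [e, h2]
            ring
          · intro h3
            apply hsq
            exact ⟨z, by linarith⟩
      have hpos : 0 < x ^ 2 + d * y ^ 2 := by
        rw [hxyz]
        have : 0 < z ^ 2 := by positivity
        positivity
      have h2 := hf x y hpos
      rw [hxyz, L_mul hq0 (pow_ne_zero 2 hz), L_prime hq, L_sq hz] at h2
      norm_num at h2

theorem inf (d : ℤ) (hd : d ≠ 0) :
    Set.Infinite {n : ℕ | 1 ≤ n ∧ 0 < (n : ℤ) ^ 2 + d ∧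
      (-1 : ℤ) ^ (ArithmeticFunction.cardFactors (((n : ℤ) ^ 2 + d).toNat)) = -1} := by
  intro hfin
  obtain ⟨N, hN⟩ := hfin.bddAbove
  have key : ∀ n : ℕ, N + 1 ≤ n → 0 < (n : ℤ) ^ 2 + d → L ((n : ℤ) ^ 2 + d) = 1 := by
    intro n hn hpos
    rcases L_cases ((n : ℤ) ^ 2 + d) with h | h
    · exact h
    · exfalso
      have hmem : n ∈ {n : ℕ | 1 ≤ n ∧ 0 < (n : ℤ) ^ 2 + d ∧
          (-1 : ℤ) ^ (ArithmeticFunction.cardFactors (((n : ℤ) ^ 2 + d).toNat)) = -1} := by
        refine ⟨by omega, hpos, ?_⟩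
        unfold L at h
        have e : ((n : ℤ) ^ 2 + d).toNat = ((n : ℤ) ^ 2 + d).natAbs := by omega
        rw [e]
        exact h
      have := hN hmem
      omega
  exact main d hd (fun n hpos => all_nat key (N + 1) n (by omega) hpos)

end Pool.Agent.Y821.LShift
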