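import Mathlib

/-!
Euler's totient function does not have the Erdős–Pomerance–Sárközy property (P):
for `F(x) = x / k(x)` with `k(x) → ∞` slowly, at most `6 F(x)` integers `n` satisfy
`x < n + φ(n) < x + F(x)`.
-/

set_option autoImplicit false

namespace Pool.Agent.Y821.TotP

open Finset Filter Topology

/-- the sum over `n ≤ N` of the sum of `1/p` over the primes `p > y` dividing `n` is at most `N/y` -/
lemma sum_recip (y N : ℕ) (hy : 1 ≤ y) :
    ∑ n ∈ Icc 1 N, ∑ p ∈ n.primeFactors.filter (fun p => y < p), (1 / (p:ℝ)) ≤ (N:ℝ) / y := by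
  have h1 : ∑ n ∈ Icc 1 N, ∑ p ∈ n.primeFactors.filter (fun p => y < p), (1 / (p:ℝ))
      ≤ ∑ n ∈ Icc 1 N, ∑ p ∈ Ioc y N, if p ∣ n then (1 / (p:ℝ)) else 0 := by
    refine sum_le_sum fun n hn => ?_
    rw [← sum_filter]
    refine sum_le_sum_of_subset_of_nonneg ?_ (fun _ _ _ => by positivity)
    intro p hp
    simp only [mem_filter, Nat.mem_primeFactors, mem_Ioc, mem_Icc] at *
    exact ⟨⟨hp.2, (Nat.le_of_dvd (by omega) hp.1.2.1).trans hn.2⟩, hp.1.2.1⟩
  refine h1.trans ?_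
  rw [sum_comm]
  have h2 : ∀ p ∈ Ioc y N, (∑ n ∈ Icc 1 N, if p ∣ n then (1 / (p:ℝ)) else 0)
      ≤ N * ((p:ℝ)^2)⁻¹ := by
    intro p hp
    rw [mem_Ioc] at hp
    have hp0 : (0:ℝ) < p := by
      have : 0 < p := by omega
      exact_mod_cast this
    rw [← sum_filter, sum_const, nsmul_eq_mul]
    have h3 : ((Icc 1 N).filter (fun n => p ∣ n)).card = N / p := by
      have h4 := Nat.Ioc_filter_dvd_card_eq_div N p
      rw [← h4]
      congr 1
    rw [h3]
    have h5 : ((N / p : ℕ) : ℝ) ≤ N / p := Nat.cast_div_le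
    calc ((N / p : ℕ) : ℝ) * (1 / (p:ℝ)) ≤ ((N:ℝ)/p) * (1/p) := by gcongr
      _ = _ := by field_simp
  refine (sum_le_sum h2).trans ?_
  rw [← mul_sum, div_eq_mul_inv]
  refine mul_le_mul_of_nonneg_left ?_ (by positivity)
  by_cases hN : y ≤ N
  · have h6 := sum_Ioc_inv_sq_le_sub (α := ℝ) (by omega : y ≠ 0) hN
    have h7 : (0:ℝ) ≤ (N:ℝ)⁻¹ := by positivity
    linarith
  · rw [Ioc_eq_empty (by omega)]
    simp

lemma one_sub_sum_le {ι : Type*} (s : Finset ι) (a : ι → ℝ) (h0 : ∀ i ∈ s, 0 ≤ a i)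
    (h1 : ∀ i ∈ s, a i ≤ 1) : 1 - ∑ i ∈ s, a i ≤ ∏ i ∈ s, (1 - a i) := by
  classical
  induction s using Finset.induction_on with
  | empty => simp
  | insert i s hi ih =>
    rw [sum_insert hi, prod_insert hi]
    have ih' := ih (fun j hj => h0 j (mem_insert_of_mem hj)) (fun j hj => h1 j (mem_insert_of_mem hj))
    have ha0 := h0 i (mem_insert_self i s)
    have ha1 := h1 i (mem_insert_self i s)
    have hp : ∏ j ∈ s, (1 - a j) ≤ 1 := by
      refine prod_le_one (fun j hj => ?_) (fun j hj => ?_)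
      · have := h1 j (mem_insert_of_mem hj); linarith
      · have := h0 j (mem_insert_of_mem hj); linarith
    nlinarith

/-- the product of `1 - 1/p` over the primes `p ≤ y` dividing `n` -/
noncomputable def g (y n : ℕ) : ℝ :=
  ∏ p ∈ (range (y+1)).filter Nat.Prime, if p ∣ n then (1 - 1/(p:ℝ)) else 1

lemma g_nonneg (y n : ℕ) : 0 ≤ g y n := by
  unfold g
  refine prod_nonneg fun p hp => ?_
  split_ifs
  · have h : 1 ≤ p := (mem_filter.1 hp).2.one_lt.le
    have h' : (1:ℝ) ≤ p := by exact_mod_cast h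
    have : 1 / (p:ℝ) ≤ 1 := by rw [div_le_one (by linarith)]; exact h'
    linarith
  · norm_num

lemma g_mod (y n : ℕ) : g y n = g y (n % y.factorial) := by
  unfold g
  refine prod_congr rfl fun p hp => ?_
  rw [mem_filter, mem_range] at hp
  have h : p ∣ y.factorial := (Nat.Prime.dvd_factorial hp.2).2 (by omega)
  simp only [Nat.dvd_mod_iff h]

lemma g_eq (y n : ℕ) (hn : n ≠ 0) :
    g y n = ∏ p ∈ n.primeFactors.filter (fun p => ¬ y < p), (1 - 1/(p:ℝ)) := by
  unfold g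
  rw [← prod_filter]
  refine prod_congr ?_ fun _ _ => rfl
  ext p
  simp only [mem_filter, mem_range, Nat.mem_primeFactors]
  constructor
  · rintro ⟨⟨h1, h2⟩, h3⟩
    exact ⟨⟨h2, h3, hn⟩, by omega⟩
  · rintro ⟨⟨h2, h3, _⟩, h1⟩
    exact ⟨⟨by omega, h2⟩, h3⟩

lemma phi_eq (n : ℕ) : (Nat.totient n : ℝ) = n * ∏ p ∈ n.primeFactors, (1 - 1/(p:ℝ)) := by
  have h := Nat.totient_eq_mul_prod_factors n
  have h2 : ((Nat.totient n : ℚ) : ℝ) = ((n * ∏ p ∈ n.primeFactors, (1 - (p : ℚ)⁻¹) : ℚ) : ℝ) := by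
    rw [h]
  push_cast at h2
  rw [h2]
  simp only [one_div]

lemma prime_bd {n p : ℕ} (hp : p ∈ n.primeFactors) : 0 ≤ 1/(p:ℝ) ∧ 1/(p:ℝ) ≤ 1/2 := by
  have h := (Nat.prime_of_mem_primeFactors hp).two_le
  have h' : (2:ℝ) ≤ p := by exact_mod_cast h
  refine ⟨by positivity, ?_⟩
  exact one_div_le_one_div_of_le (by norm_num) h'

/-- the sum of `1/p` over the primes `p > y` dividing `n` -/
noncomputable def tail (y n : ℕ) : ℝ := ∑ p ∈ n.primeFactors.filter (fun p => y < p), (1 / (p:ℝ))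

lemma tail_nonneg (y n : ℕ) : 0 ≤ tail y n := sum_nonneg fun _ _ => by positivity

lemma phi_split (y n : ℕ) (hn : n ≠ 0) : (Nat.totient n : ℝ) =
    n * g y n * ∏ p ∈ n.primeFactors.filter (fun p => y < p), (1 - 1/(p:ℝ)) := by
  rw [phi_eq, g_eq y n hn, mul_assoc]
  congr 1
  rw [mul_comm, prod_filter_mul_prod_filter_not]

lemma phi_le (y n : ℕ) (hn : n ≠ 0) : (Nat.totient n : ℝ) ≤ n * g y n := by
  rw [phi_split y n hn]
  have h1 : ∏ p ∈ n.primeFactors.filter (fun p => y < p), (1 - 1/(p:ℝ)) ≤ 1 := by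
    refine prod_le_one (fun p hp => ?_) (fun p hp => ?_)
    · have := prime_bd (mem_filter.1 hp).1; linarith [this.2]
    · have := prime_bd (mem_filter.1 hp).1; linarith [this.1]
  have h2 : (0:ℝ) ≤ n * g y n := mul_nonneg (by positivity) (g_nonneg y n)
  nlinarith

lemma g_le_one (y n : ℕ) : g y n ≤ 1 := by
  unfold g
  refine prod_le_one (fun p hp => ?_) (fun p hp => ?_)
  · split_ifs
    · have h : 1 ≤ p := (mem_filter.1 hp).2.one_lt.le
      have h' : (1:ℝ) ≤ p := by exact_mod_cast h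
      have : 1 / (p:ℝ) ≤ 1 := by rw [div_le_one (by linarith)]; exact h'
      linarith
    · norm_num
  · split_ifs
    · have : 0 ≤ 1/(p:ℝ) := by positivity
      linarith
    · exact le_refl _

lemma phi_ge (y n : ℕ) (hn : n ≠ 0) : n * g y n - n * tail y n ≤ (Nat.totient n : ℝ) := by
  rw [phi_split y n hn]
  have h1 : 1 - tail y n ≤ ∏ p ∈ n.primeFactors.filter (fun p => y < p), (1 - 1/(p:ℝ)) := by
    refine one_sub_sum_le _ _ (fun p hp => ?_) (fun p hp => ?_)
    · exact (prime_bd (mem_filter.1 hp).1).1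
    · have := (prime_bd (mem_filter.1 hp).1).2
      linarith
  have h2 : (0:ℝ) ≤ n * g y n := mul_nonneg (by positivity) (g_nonneg y n)
  have h3 := tail_nonneg y n
  have h4 : n * g y n * tail y n ≤ n * tail y n := by
    have : n * g y n ≤ n * 1 := mul_le_mul_of_nonneg_left (g_le_one y n) (by positivity)
    nlinarith
  nlinarith [mul_le_mul_of_nonneg_left h1 h2]

lemma card_class (S : Finset ℕ) (M r : ℕ) (hM : 0 < M) (α β : ℝ) (hαβ : α ≤ β)
    (h : ∀ n ∈ S, n % M = r ∧ α < n ∧ (n:ℝ) < β) : (S.card : ℝ) ≤ (β - α)/M + 1 := by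
  have hM' : (0:ℝ) < M := by exact_mod_cast hM
  rcases S.eq_empty_or_nonempty with rfl | hS
  · simp only [card_empty, Nat.cast_zero]
    have : 0 ≤ (β - α)/M := div_nonneg (by linarith) hM'.le
    linarith
  · set a := S.min' hS
    set b := S.max' hS
    have ha := h a (S.min'_mem hS)
    have hb := h b (S.max'_mem hS)
    have hab : a ≤ b := S.min'_le b (S.max'_mem hS)
    have hsub : S ⊆ (range ((b - a)/M + 1)).image (fun j => a + M * j) := by
      intro n hn
      have hn1 := h n hn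
      have han : a ≤ n := S.min'_le n hn
      have hnb : n ≤ b := S.le_max' n hn
      have hmod : n ≡ a [MOD M] := by
        show n % M = a % M
        rw [hn1.1, ha.1]
      have hd : M ∣ n - a := (Nat.modEq_iff_dvd' han).1 hmod.symm
      obtain ⟨j, hj⟩ := hd
      rw [mem_image]
      refine ⟨j, ?_, by omega⟩
      rw [mem_range]
      have : j ≤ (b - a)/M := by
        rw [Nat.le_div_iff_mul_le hM]
        have : M * j ≤ b - a := by omega
        linarith [mul_comm M j]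
      omega
    have hc := (card_le_card hsub).trans card_image_le
    rw [card_range] at hc
    have h1 : ((S.card : ℕ) : ℝ) ≤ (((b - a)/M + 1 : ℕ) : ℝ) := by exact_mod_cast hc
    refine h1.trans ?_
    push_cast
    have h2 : (((b - a)/M : ℕ) : ℝ) ≤ ((b - a : ℕ) : ℝ)/M := Nat.cast_div_le
    have h3 : ((b - a : ℕ) : ℝ) = b - a := by push_cast [hab]; ring
    have h4 : ((b - a : ℕ) : ℝ)/M ≤ (β - α)/M := by
      rw [h3]
      gcongr
      · exact hb.2.2.le
      · exact ha.2.1.le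
    linarith

lemma count_bound (k x : ℕ) (hk : 1 ≤ k) (hx : k * (k^2).factorial ≤ x) :
    (Set.ncard {n : ℕ | (x:ℝ) < (n:ℝ) + (Nat.totient n : ℝ) ∧
      (n:ℝ) + (Nat.totient n : ℝ) < (x:ℝ) + (x:ℝ) / k} : ℝ) ≤ 6 * ((x:ℝ) / k) := by
  classical
  set M := (k^2).factorial with hMdef
  have hM : 0 < M := Nat.factorial_pos _
  have hM' : (0:ℝ) < M := by exact_mod_cast hM
  have hk' : (1:ℝ) ≤ k := by exact_mod_cast hk
  have hk0 : (0:ℝ) < k := by linarith
  have hx0 : (0:ℝ) ≤ x := by positivity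
  have hxk : (x:ℝ)/k ≤ x := by
    rw [div_le_iff₀ hk0]; nlinarith
  have hxk0 : 0 ≤ (x:ℝ)/k := by positivity
  have hMx : (M:ℝ) ≤ (x:ℝ)/k := by
    rw [le_div_iff₀ hk0]
    have : ((k * M : ℕ) : ℝ) ≤ x := by exact_mod_cast hx
    push_cast at this
    linarith
  set T : Finset ℕ := (Icc 1 (2*x)).filter (fun n => (x:ℝ) < (n:ℝ) + (Nat.totient n : ℝ) ∧
      (n:ℝ) + (Nat.totient n : ℝ) < (x:ℝ) + (x:ℝ) / k) with hT
  have hset : {n : ℕ | (x:ℝ) < (n:ℝ) + (Nat.totient n : ℝ) ∧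
      (n:ℝ) + (Nat.totient n : ℝ) < (x:ℝ) + (x:ℝ) / k} = (T : Set ℕ) := by
    ext n
    simp only [hT, coe_filter, mem_Icc, Set.mem_ofPred_eq]
    constructor
    · rintro ⟨h1, h2⟩
      refine ⟨⟨?_, ?_⟩, h1, h2⟩
      · by_contra h
        have : n = 0 := by omega
        subst this
        simp at h1
        linarith
      · have h3 : (0:ℝ) ≤ Nat.totient n := by positivity
        have h4 : (n:ℝ) < 2 * x := by linarith
        exact_mod_cast h4.le
    · rintro ⟨_, h1, h2⟩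
      exact ⟨h1, h2⟩
  rw [hset, Set.ncard_coe_finset]
  -- split into bad and good
  set B := T.filter (fun n => 1/(k:ℝ) < tail (k^2) n) with hB
  set G := T.filter (fun n => ¬ 1/(k:ℝ) < tail (k^2) n) with hG
  have hcard : T.card = B.card + G.card := (card_filter_add_card_filter_not _).symm
  have hk2 : 1 ≤ k^2 := Nat.one_le_pow _ _ hk
  -- bad
  have hBc : (B.card : ℝ) ≤ 2 * ((x:ℝ)/k) := by
    have h1 : (B.card : ℝ) * (1/(k:ℝ)) ≤ ∑ n ∈ Icc 1 (2*x), tail (k^2) n := by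
      calc (B.card : ℝ) * (1/(k:ℝ)) = ∑ n ∈ B, (1/(k:ℝ)) := by rw [sum_const, nsmul_eq_mul]
        _ ≤ ∑ n ∈ B, tail (k^2) n := sum_le_sum fun n hn => (mem_filter.1 hn).2.le
        _ ≤ _ := by
          refine sum_le_sum_of_subset_of_nonneg ?_ (fun n _ _ => tail_nonneg _ _)
          exact (filter_subset _ _).trans (filter_subset _ _)
    have h2 := sum_recip (k^2) (2*x) hk2
    have h3 : (B.card : ℝ) * (1/(k:ℝ)) ≤ ((2*x : ℕ):ℝ) / ((k^2 : ℕ):ℝ) := h1.trans h2
    push_cast at h3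
    have h4 : (B.card : ℝ) = (B.card : ℝ) * (1/(k:ℝ)) * k := by field_simp
    rw [h4]
    calc (B.card : ℝ) * (1/(k:ℝ)) * k ≤ (2 * (x:ℝ) / (k:ℝ)^2) * k := by gcongr
      _ = 2 * ((x:ℝ)/k) := by field_simp
  -- good
  have hGc : (G.card : ℝ) ≤ 3 * ((x:ℝ)/k) + M := by
    have h1 : G.card = ∑ r ∈ range M, (G.filter (fun n => n % M = r)).card := by
      refine card_eq_sum_card_fiberwise (f := fun n => n % M) (t := range M) ?_
      intro n _
      simp only [coe_range, Set.mem_Iio]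
      exact Nat.mod_lt _ hM
    rw [h1]
    push_cast
    have h2 : ∀ r ∈ range M, (((G.filter (fun n => n % M = r)).card : ℕ) : ℝ) ≤
        3 * ((x:ℝ)/k)/M + 1 := by
      intro r _
      set c := g (k^2) r with hc
      have hc0 : 0 ≤ c := g_nonneg _ _
      have hc1 : 0 < 1 + c := by linarith
      have h3 := card_class (G.filter (fun n => n % M = r)) M r hM ((x:ℝ)/(1+c))
        (((x:ℝ) + 3 * ((x:ℝ)/k))/(1+c)) (by gcongr; linarith) (by
          intro n hn
          rw [mem_filter, hG, mem_filter, hT, mem_filter, mem_Icc] at hn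
          obtain ⟨⟨⟨⟨hn1, hn2⟩, hn3, hn4⟩, hn5⟩, hn6⟩ := hn
          have hn0 : n ≠ 0 := by omega
          have hgc : g (k^2) n = c := by rw [g_mod, ← hMdef, hn6]
          have h5 := phi_le (k^2) n hn0
          have h6 := phi_ge (k^2) n hn0
          rw [hgc] at h5 h6
          have hnpos : (0:ℝ) ≤ n := by positivity
          have hn7 : (n:ℝ) ≤ 2 * x := by exact_mod_cast hn2
          have h7 : (n:ℝ) * tail (k^2) n ≤ 2 * ((x:ℝ)/k) := by
            have h8 : tail (k^2) n ≤ 1/(k:ℝ) := not_lt.1 hn5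
            calc (n:ℝ) * tail (k^2) n ≤ (2 * x) * (1/(k:ℝ)) := by
                  gcongr
                  exact tail_nonneg _ _
              _ = _ := by ring
          refine ⟨hn6, ?_, ?_⟩
          · rw [div_lt_iff₀ hc1]; nlinarith
          · rw [lt_div_iff₀ hc1]; nlinarith)
      refine h3.trans ?_
      have h9 : ((x:ℝ) + 3 * ((x:ℝ)/k))/(1+c) - (x:ℝ)/(1+c) ≤ 3 * ((x:ℝ)/k) := by
        rw [← sub_div]
        have : (x:ℝ) + 3 * ((x:ℝ)/k) - x = 3 * ((x:ℝ)/k) := by ring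
        rw [this, div_le_iff₀ hc1]
        nlinarith
      gcongr
    refine (sum_le_sum h2).trans ?_
    rw [sum_const, card_range, nsmul_eq_mul, mul_add, mul_one]
    have : (M:ℝ) * (3 * ((x:ℝ)/k)/M) = 3 * ((x:ℝ)/k) := by field_simp
    rw [this]
  rw [hcard]
  push_cast
  linarith

/-- the slowly growing function `k(x)` -/
noncomputable def K (x : ℕ) : ℕ := Nat.findGreatest (fun k => k * (k^2).factorial ≤ x) x

lemma K_spec (x : ℕ) : K x * ((K x)^2).factorial ≤ x := by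
  have h : (fun k => k * (k^2).factorial ≤ x) (K x) :=
    Nat.findGreatest_spec (P := fun k => k * (k^2).factorial ≤ x) (m := 0) (Nat.zero_le _) (by simp)
  exact h

lemma le_K (k x : ℕ) (h : k * (k^2).factorial ≤ x) : k ≤ K x := by
  refine Nat.le_findGreatest ?_ h
  refine le_trans ?_ h
  exact Nat.le_mul_of_pos_right k (Nat.factorial_pos _)

lemma K_tendsto : Tendsto K atTop atTop := by
  rw [tendsto_atTop]
  intro k
  filter_upwards [eventually_ge_atTop (k * (k^2).factorial)] with x hx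
  exact le_K k x hx

/-- `F(x) = x / k(x)` -/
noncomputable def F (x : ℕ) : ℝ := (x:ℝ) / (K x : ℝ)

lemma F_tendsto : Tendsto F atTop atTop := by
  have h1 : Tendsto (fun x => (K x : ℝ)) atTop atTop := tendsto_natCast_atTop_atTop.comp K_tendsto
  refine tendsto_atTop_mono' _ ?_ h1
  filter_upwards [K_tendsto.eventually_ge_atTop 1] with x hx
  have hK : (0:ℝ) < K x := by exact_mod_cast hx
  unfold F
  rw [le_div_iff₀ hK]
  have h2 := K_spec x
  have h3 : K x ≤ ((K x)^2).factorial :=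
    (Nat.le_self_pow (by norm_num) _).trans (Nat.self_le_factorial _)
  have h4 : K x * K x ≤ x := (Nat.mul_le_mul_left _ h3).trans h2
  exact_mod_cast h4

lemma log_bound (n : ℕ) (hn : n ≠ 0) : Real.log ((n:ℝ) / (Nat.totient n : ℝ)) ≤ 2 * tail 1 n := by
  have hn' : (0:ℝ) < n := by positivity
  have hφ : (0:ℝ) < Nat.totient n := by exact_mod_cast Nat.totient_pos.2 (Nat.pos_of_ne_zero hn)
  have h1 : (n:ℝ) / (Nat.totient n : ℝ) = ∏ p ∈ n.primeFactors, (1 - 1/(p:ℝ))⁻¹ := by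
    rw [prod_inv_distrib, phi_eq n]
    have : ∏ p ∈ n.primeFactors, (1 - 1/(p:ℝ)) ≠ 0 := by
      refine prod_ne_zero_iff.2 fun p hp => ?_
      have := prime_bd hp
      linarith [this.2]
    field_simp
  have h2 : tail 1 n = ∑ p ∈ n.primeFactors, (1 / (p:ℝ)) := by
    unfold tail
    congr 1
    rw [filter_eq_self]
    intro p hp
    exact (Nat.prime_of_mem_primeFactors hp).one_lt
  rw [h1, h2, Real.log_prod (fun p hp => by
    have := prime_bd hp
    have : (0:ℝ) < 1 - 1/(p:ℝ) := by linarith [this.2]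
    positivity), mul_sum]
  refine sum_le_sum fun p hp => ?_
  obtain ⟨h3, h4⟩ := prime_bd hp
  have h5 : (0:ℝ) < 1 - 1/(p:ℝ) := by linarith
  have h6 := Real.log_le_sub_one_of_pos (inv_pos.2 h5)
  refine h6.trans ?_
  rw [sub_le_iff_le_add, inv_le_iff_one_le_mul₀ h5]
  nlinarith

/-- the density one set -/
def A : Set ℕ := {n | n = 0 ∨ (n:ℝ) / (Nat.totient n : ℝ) ≤ Real.sqrt (K n)}

lemma A_compl_count (L : ℝ) (hL : 0 < L) (n₀ N : ℕ)
    (h₀ : ∀ n, n₀ ≤ n → Real.exp L ≤ Real.sqrt (K n)) :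
    ((Aᶜ ∩ Set.Iio N).ncard : ℝ) ≤ n₀ + 2 * N / L := by
  classical
  have hfin : (Aᶜ ∩ Set.Iio N).Finite := (Set.finite_Iio N).subset Set.inter_subset_right
  set D : Finset ℕ := (Icc 1 N).filter (fun n => L < 2 * tail 1 n)
  have hsub : Aᶜ ∩ Set.Iio N ⊆ ((range n₀ ∪ D : Finset ℕ) : Set ℕ) := by
    rintro n ⟨hn1, hn2⟩
    simp only [A, Set.mem_compl_iff, Set.mem_ofPred_eq, not_or, not_le] at hn1
    simp only [coe_union, Set.mem_union, mem_coe, mem_range]
    by_cases hn : n < n₀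
    · exact Or.inl hn
    · right
      rw [mem_filter, mem_Icc]
      refine ⟨⟨Nat.pos_of_ne_zero hn1.1, le_of_lt hn2⟩, ?_⟩
      have h1 := (h₀ n (not_lt.1 hn)).trans_lt hn1.2
      have h2 := log_bound n hn1.1
      have h3 : L < Real.log ((n:ℝ) / (Nat.totient n : ℝ)) := by
        rw [Real.lt_log_iff_exp_lt ((Real.exp_pos _).trans h1)]
        exact h1
      linarith
  have h4 : ((Aᶜ ∩ Set.Iio N).ncard : ℝ) ≤ ((range n₀ ∪ D).card : ℝ) := by
    have := Set.ncard_le_ncard hsub (finite_toSet _)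
    rw [Set.ncard_coe_finset] at this
    exact_mod_cast this
  have h5 : ((range n₀ ∪ D).card : ℝ) ≤ n₀ + D.card := by
    have := card_union_le (range n₀) D
    rw [card_range] at this
    exact_mod_cast this
  have h6 : (D.card : ℝ) ≤ 2 * N / L := by
    rw [le_div_iff₀ hL]
    have h7 := sum_recip 1 N le_rfl
    have h8 : (D.card : ℝ) * L ≤ ∑ n ∈ Icc 1 N, 2 * tail 1 n := by
      calc (D.card : ℝ) * L = ∑ n ∈ D, L := by rw [sum_const, nsmul_eq_mul]
        _ ≤ ∑ n ∈ D, 2 * tail 1 n := sum_le_sum fun n hn => (mem_filter.1 hn).2.le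
        _ ≤ _ := sum_le_sum_of_subset_of_nonneg (filter_subset _ _)
          (fun n _ _ => mul_nonneg (by norm_num) (tail_nonneg _ _))
    rw [← mul_sum] at h8
    have h9 : ∑ n ∈ Icc 1 N, tail 1 n ≤ (N:ℝ) / ((1:ℕ):ℝ) := h7
    rw [Nat.cast_one, div_one] at h9
    linarith
  linarith

lemma A_density :
    Tendsto (fun N : ℕ => ((A ∩ Set.Iio N).ncard : ℝ) / (N : ℝ)) atTop (𝓝 1) := by
  have hsplit : ∀ N : ℕ, ((A ∩ Set.Iio N).ncard : ℝ) = N - ((Aᶜ ∩ Set.Iio N).ncard : ℝ) := by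
    intro N
    have h1 : (A ∩ Set.Iio N) ∪ (Aᶜ ∩ Set.Iio N) = Set.Iio N := by
      rw [← Set.union_inter_distrib_right, Set.union_compl_self, Set.univ_inter]
    have hd : Disjoint (A ∩ Set.Iio N) (Aᶜ ∩ Set.Iio N) :=
      (disjoint_compl_right (a := A)).mono Set.inter_subset_left Set.inter_subset_left
    have h2 := Set.ncard_union_eq hd ((Set.finite_Iio N).subset Set.inter_subset_right)
      ((Set.finite_Iio N).subset Set.inter_subset_right)
    rw [h1] at h2
    have h3 : (Set.Iio N).ncard = N := by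
      rw [Set.ncard_eq_toFinset_card']
      simp
    rw [h3] at h2
    have h4 : (N:ℝ) = ((A ∩ Set.Iio N).ncard : ℝ) + ((Aᶜ ∩ Set.Iio N).ncard : ℝ) := by
      exact_mod_cast h2
    linarith
  rw [Metric.tendsto_atTop]
  intro ε hε
  -- choose L with 2/L ≤ ε/2
  set L := 4/ε + 1 with hLdef
  have hL : 0 < L := by positivity
  have hK : Tendsto (fun n => Real.sqrt (K n)) atTop atTop :=
    Real.tendsto_sqrt_atTop.comp (tendsto_natCast_atTop_atTop.comp K_tendsto)
  obtain ⟨n₀, hn₀⟩ := eventually_atTop.1 (hK.eventually_ge_atTop (Real.exp L))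
  obtain ⟨N₁, hN₁⟩ := exists_nat_gt ((n₀:ℝ) * (2/ε))
  refine ⟨N₁ + 1, fun N hN => ?_⟩
  have hNpos : (0:ℝ) < N := by
    have : 0 < N := by omega
    exact_mod_cast this
  have hNbig : (n₀:ℝ) * (2/ε) < N := by
    have : (N₁:ℝ) ≤ N := by exact_mod_cast (by omega : N₁ ≤ N)
    linarith
  have hc := A_compl_count L hL n₀ N hn₀
  rw [hsplit N, Real.dist_eq]
  have hc0 : (0:ℝ) ≤ ((Aᶜ ∩ Set.Iio N).ncard : ℝ) := by positivity
  have h1 : ((N:ℝ) - ((Aᶜ ∩ Set.Iio N).ncard : ℝ)) / N - 1 = -(((Aᶜ ∩ Set.Iio N).ncard : ℝ) / N) := by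
    field_simp
    ring
  rw [h1, abs_neg, abs_of_nonneg (by positivity), div_lt_iff₀ hNpos]
  refine hc.trans_lt ?_
  have h2 : (n₀:ℝ) < ε/2 * N := by
    have : (n₀:ℝ) = (n₀:ℝ) * (2/ε) * (ε/2) := by field_simp
    rw [this]
    nlinarith
  have h3 : 2 * (N:ℝ) / L ≤ ε/2 * N := by
    rw [div_le_iff₀ hL]
    have h4 : 2 ≤ ε/2 * L := by
      rw [hLdef]
      have : ε/2 * (4/ε + 1) = 2 + ε/2 := by field_simp; ring
      rw [this]; linarith
    nlinarith
  linarith

lemma F_small : Tendsto (fun n : ℕ => F n / (Nat.totient n : ℝ)) (atTop ⊓ 𝓟 A) (𝓝 0) := by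
  have hK : Tendsto (fun n => Real.sqrt (K n)) atTop atTop :=
    Real.tendsto_sqrt_atTop.comp (tendsto_natCast_atTop_atTop.comp K_tendsto)
  have h1 : Tendsto (fun n => (Real.sqrt (K n))⁻¹) (atTop ⊓ 𝓟 A) (𝓝 0) :=
    (tendsto_inv_atTop_zero.comp hK).mono_left inf_le_left
  refine squeeze_zero' (Eventually.of_forall fun n => ?_) ?_ h1
  · unfold F; positivity
  · rw [eventually_inf_principal]
    filter_upwards [K_tendsto.eventually_ge_atTop 1, eventually_ge_atTop 1] with n hKn hn hA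
    have hKn' : (0:ℝ) < K n := by exact_mod_cast hKn
    have hn' : n ≠ 0 := by omega
    have hφ : (0:ℝ) < Nat.totient n := by exact_mod_cast Nat.totient_pos.2 (Nat.pos_of_ne_zero hn')
    have h2 : (n:ℝ) / (Nat.totient n : ℝ) ≤ Real.sqrt (K n) := hA.resolve_left hn'
    have hs : 0 < Real.sqrt (K n) := Real.sqrt_pos.2 hKn'
    have h3 : F n / (Nat.totient n : ℝ) = ((n:ℝ) / (Nat.totient n : ℝ)) / K n := by
      unfold F; field_simp
    rw [h3]
    calc ((n:ℝ) / (Nat.totient n : ℝ)) / K n ≤ Real.sqrt (K n) / K n := by gcongr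
      _ = (Real.sqrt (K n))⁻¹ := by
        have : (K n : ℝ) = Real.sqrt (K n) * Real.sqrt (K n) := (Real.mul_self_sqrt hKn'.le).symm
        rw [eq_comm, inv_eq_iff_eq_inv, inv_div, eq_div_iff hs.ne']
        exact this.symm

/-- `φ` does not have property (P) -/
theorem main : ∃ F : ℕ → ℝ, Tendsto F atTop atTop ∧
      (∃ A : Set ℕ,
        Tendsto (fun N : ℕ => ((A ∩ Set.Iio N).ncard : ℝ) / (N : ℝ)) atTop (𝓝 1) ∧
        Tendsto (fun n : ℕ => F n / (Nat.totient n : ℝ)) (atTop ⊓ 𝓟 A) (𝓝 0)) ∧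
      ¬ (∀ C : ℝ, Set.Infinite {x : ℕ |
          ((Set.ncard {n : ℕ | (x : ℝ) < (n : ℝ) + (Nat.totient n : ℝ) ∧
              (n : ℝ) + (Nat.totient n : ℝ) < (x : ℝ) + F x} : ℕ) : ℝ) > C * F x}) := by
  refine ⟨F, F_tendsto, ⟨A, A_density, F_small⟩, fun h => ?_⟩
  obtain ⟨n₀, hn₀⟩ := eventually_atTop.1 (K_tendsto.eventually_ge_atTop 1)
  refine (h 6) ((Set.finite_Iio n₀).subset ?_)
  intro x hx
  by_contra hcon
  have h1 : 1 ≤ K x := hn₀ x (by simpa using hcon)
  have h2 := count_bound (K x) x h1 (K_spec x)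
  have h3 : ((Set.ncard {n : ℕ | (x : ℝ) < (n : ℝ) + (Nat.totient n : ℝ) ∧
              (n : ℝ) + (Nat.totient n : ℝ) < (x : ℝ) + F x} : ℕ) : ℝ) > 6 * F x := hx
  have h4 : F x = (x:ℝ) / (K x : ℝ) := rfl
  rw [h4] at h3
  linarith

end Pool.Agent.Y821.TotP
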